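import Pool.Agent.X208.BR.Ell

/-!
# Rationality of central values of elliptic curves: almost all layers suffice

Let `A` be an elliptic curve over the number field `K` and let `r(K') = L(1, A_{K'}) / Ω(A_{K'})` for the
number fields `K' ⊃ K` (`CentralValues`); the question is whether `r(K')` is rational. The only input are
the Brauer relations. Let `M/K` be Galois with elementary abelian group of exponent `p` such that
`L(1, A_{K'}) ≠ 0` for all the fields `K ⊂ K' ⊂ M` (`Good`), and let `x`, `y` be the proportions of the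
fields `K'` of degree `p` and `p²` over `K` with `r(K') ∉ ℚ`.

1. If `r(K)^p ∉ ℚ`, then `(p + 1) x + y ≥ 1`.
2. If `r(K) ∉ ℚ`, this is so for all primes `p` but at most one and for all such `M`; in particular
   `x ≥ 1/(p+2)` or `y ≥ 1/(p+2)`, and if `[M : K] ≥ p²` there is at least one such field.
3. Almost all implies all: if for two primes `p ≠ ℓ` there are such extensions `M`, `M'` of `K` with
   `r(K') ∈ ℚ` for more than `(p+1)/(p+2)` of the fields of both layers of `M`, and for more than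
   `(ℓ+1)/(ℓ+2)` of the fields of both layers of `M'`, then `r(K) ∈ ℚ`.
-/

set_option autoImplicit false

namespace Pool.Agent.Results.MP_90f827_nt.AlmostAllLayers

open Pool.Agent.X208.BR Pool.Agent.X208.BR.Pk

/-- **Rationality of central values of elliptic curves: almost all layers suffice.** -/
theorem result (K : Fld) (E : CentralValues K) :
    -- 1. one prime
    (∀ (p : ℕ) (M : Fld), p.Prime → E.Good p M → (∀ q : ℚ, E.r K ^ p ≠ q) →
      (Pk.layer K M p).ncard * (Pk.layer K M (p ^ 2)).ncard ≤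
        (Pk.layer K M p).ncard * (E.failing M (p ^ 2)).ncard +
          (p + 1) * (Pk.layer K M (p ^ 2)).ncard * (E.failing M p).ncard) ∧
    -- 2. all primes but at most one
    (¬ E.Rational K → ∃ p₀ : ℕ, ∀ (p : ℕ) (M : Fld), p.Prime → p ≠ p₀ → E.Good p M →
      (Pk.layer K M p).ncard * (Pk.layer K M (p ^ 2)).ncard ≤
        (Pk.layer K M p).ncard * (E.failing M (p ^ 2)).ncard +
          (p + 1) * (Pk.layer K M (p ^ 2)).ncard * (E.failing M p).ncard ∧
      ((Pk.layer K M p).ncard ≤ (p + 2) * (E.failing M p).ncard ∨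
        (Pk.layer K M (p ^ 2)).ncard ≤ (p + 2) * (E.failing M (p ^ 2)).ncard) ∧
      (p ^ 2 * deg K ≤ deg M → ∃ n, (n = p ∨ n = p ^ 2) ∧ (E.failing M n).Nonempty)) ∧
    -- 3. almost all implies all
    (∀ (p ℓ : ℕ) (M M' : Fld), p.Prime → ℓ.Prime → p ≠ ℓ → E.Good p M → E.Good ℓ M' →
      (p + 2) * (E.failing M p).ncard < (Pk.layer K M p).ncard →
      (p + 2) * (E.failing M (p ^ 2)).ncard < (Pk.layer K M (p ^ 2)).ncard →
      (ℓ + 2) * (E.failing M' ℓ).ncard < (Pk.layer K M' ℓ).ncard →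
      (ℓ + 2) * (E.failing M' (ℓ ^ 2)).ncard < (Pk.layer K M' (ℓ ^ 2)).ncard →
      E.Rational K) := by
  have one : ∀ (p : ℕ) (M : Fld), p.Prime → E.Good p M → p • E.cls K ≠ 0 →
      (Pk.layer K M p).ncard * (Pk.layer K M (p ^ 2)).ncard ≤
        (Pk.layer K M p).ncard * (E.failing M (p ^ 2)).ncard +
          (p + 1) * (Pk.layer K M (p ^ 2)).ncard * (E.failing M p).ncard := by
    intro p M hp hM hne
    have h1 := perm_law_tor hp hM.elem (E.respects hp hM) hne
    rw [E.bad_eq hM, E.bad_eq hM] at h1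
    exact h1
  have two : ¬ E.Rational K → E.r K ≠ 0 := by
    intro h h0
    exact h ⟨0, by rw [h0]; simp⟩
  have key : ¬ E.Rational K → ∃ p₀ : ℕ, ∀ (p : ℕ) (M : Fld), p.Prime → p ≠ p₀ → E.Good p M →
      (Pk.layer K M p).ncard * (Pk.layer K M (p ^ 2)).ncard ≤
        (Pk.layer K M p).ncard * (E.failing M (p ^ 2)).ncard +
          (p + 1) * (Pk.layer K M (p ^ 2)).ncard * (E.failing M p).ncard := by
    intro h
    obtain ⟨p₀, hp₀⟩ := E.exceptional (two h) h
    refine ⟨p₀, fun p M hp hne hM => one p M hp hM fun h1 => ?_⟩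
    obtain ⟨q, hq⟩ := (E.nsmul_cls_eq_zero (two h) p).1 h1
    exact hp₀ p hp hne q hq
  refine ⟨fun p M hp hM h => ?_, fun h => ?_, ?_⟩
  · have h0 : E.r K ≠ 0 := hM.ne K le_rfl hM.elem.le
    refine one p M hp hM fun h1 => ?_
    obtain ⟨q, hq⟩ := (E.nsmul_cls_eq_zero h0 p).1 h1
    exact h q hq
  · obtain ⟨p₀, hp₀⟩ := key h
    refine ⟨p₀, fun p M hp hne hM => ?_⟩
    have h1 := hp₀ p M hp hne hM
    refine ⟨h1, alt_of_ineq' h1, fun hd => ?_⟩
    rw [← E.bad_eq hM, ← E.bad_eq hM] at h1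
    obtain ⟨n, hn, h2⟩ := exists_bad hp hM.elem hd h1
    rw [E.bad_eq hM] at h2
    exact ⟨n, hn, h2⟩
  · intro p ℓ M M' hp hℓ hne hM hM' h1 h2 h3 h4
    by_contra hcon
    obtain ⟨p₀, hp₀⟩ := key hcon
    by_cases h5 : p = p₀
    · have h6 : ℓ ≠ p₀ := fun h7 => hne (h5.trans h7.symm)
      rcases alt_of_ineq' (hp₀ ℓ M' hℓ h6 hM') with h8 | h8 <;> omega
    · rcases alt_of_ineq' (hp₀ p M hp h5 hM) with h8 | h8 <;> omega

end Pool.Agent.Results.MP_90f827_nt.AlmostAllLayers
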