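import Pool.Agent.X252.SLB

/-!
# Rationality of central values of elliptic curves: hyperelementary subfields suffice

Let `A` be an elliptic curve over the number field `K`, `L/K` a finite Galois extension with
`L(1, A_M) ≠ 0` for all fields `M` between `K` and `L`, and `r(M) = L(1, A_M) / Ω(A_M)`. The only input
are the Brauer relations (`CentralValues`).

1. `r(M)` is rational if `r(M')` is rational for all `M' ⊇ M` such that `Gal(L/M')` is hyperelementary.
2. For a prime `p` there is `m` prime to `p` such that `r(M) ^ m` is rational if `r(M')` is rational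
   for all `M' ⊇ M` such that `Gal(L/M')` is `p`-hyperelementary.
3. If `r(M')` is rational for all `M' ⊇ M` such that `L/M'` is cyclic, then `r(M) ^ m` is rational for
   some `m` whose prime factors divide `[L : M]`.
4. Cyclic groups suffice for `K` if there are two such extensions of `K` of coprime degrees.
-/

set_option autoImplicit false

namespace Pool.Agent.Results.MP_90f827_nt.HyperelementarySubfields

open Pool.Agent.X252.SL Pool.Agent.H302R3

theorem result (K L : Type) [Field K] [NumberField K] [Field L] [NumberField L] [Algebra K L]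
    [IsGalois K L] (r : IntermediateField K L → ℝ) (E : CentralValues K L r) :
    -- 1. hyperelementary groups
    (∀ M : IntermediateField K L, (∀ M' : IntermediateField K L, M ≤ M' →
      (∃ p : ℕ, p.Prime ∧ HypP p M'.fixingSubgroup) → ∃ q : ℚ, r M' = q) → ∃ q : ℚ, r M = q) ∧
    -- 2. one prime
    (∀ p : ℕ, p.Prime → ∃ m : ℕ, ¬ p ∣ m ∧ ∀ M : IntermediateField K L,
      (∀ M' : IntermediateField K L, M ≤ M' → HypP p M'.fixingSubgroup → ∃ q : ℚ, r M' = q) →
      ∃ q : ℚ, r M ^ m = q) ∧
    -- 3. cyclic groups
    (∀ M : IntermediateField K L, (∀ M' : IntermediateField K L, M ≤ M' →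
      IsCyclic M'.fixingSubgroup → ∃ q : ℚ, r M' = q) → ∃ m : ℕ, m ≠ 0 ∧
        (∀ q : ℕ, q.Prime → q ∣ m → q ∣ Module.finrank M L) ∧ ∃ q : ℚ, r M ^ m = q) ∧
    -- 4. two extensions of coprime degrees
    (∀ (L' : Type) [Field L'] [NumberField L'] [Algebra K L'] [IsGalois K L']
      (r' : IntermediateField K L' → ℝ), CentralValues K L' r' → r ⊥ = r' ⊥ →
      (Module.finrank K L).Coprime (Module.finrank K L') →
      (∀ M : IntermediateField K L, IsCyclic M.fixingSubgroup → ∃ q : ℚ, r M = q) →
      (∀ M : IntermediateField K L', IsCyclic M.fixingSubgroup → ∃ q : ℚ, r' M = q) →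
      ∃ q : ℚ, r ⊥ = q) :=
  ⟨all_hyp E, fun _ hp => p_hyp E hp, cyc_pow E,
    fun _ _ _ _ _ _ E' h1 h2 h3 h4 => two_ext E E' h1 h2 h3 h4⟩

end Pool.Agent.Results.MP_90f827_nt.HyperelementarySubfields
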