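import Pool.Agent.X242.UW5

/-!
# Central values of elliptic curves over number fields and universal rational weights

Let `F` be a number field, `A : y² = x³ + a x + b` an elliptic curve over `F` with `a, b` integral, `S` a finite set of
primes containing those which divide `2 (4a³ + 27b²)`. For the primes `v ∉ S` let `q_v` be the norm and
`a_v = q_v - #{affine points of A modulo v}`, and let
`L_S(s, A) = ∏_{v ∉ S} (1 - a_v q_v^{-s} + q_v^{1-2s})⁻¹ = ∑ b_n n^{-s}` (`Re s > 2`). The number `L(1, A)` of the problem is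
`L_S(1, A)` times a nonzero rational number (the factors of the primes in `S` at `s = 1`).

**Rational weights.** Fix `γ > π/2` and rational numbers `ρ_N(n)`, for every `N` almost all of them zero, with
`|ρ_N(n) - cos(γ log n / N) / Γ(1 + log n / N)| ≤ 1 / (N n²)`. They exist and do not depend on `F` and `A`. Put
`x_N(A) = ∑_n ρ_N(n) b_n / n`, a rational number: `b_n` is a polynomial with rational coefficients in the numbers of points of
`A` modulo the primes of norm at most `n`.

Assume that `L_S(s, A)` is meromorphic at the points of `[1, 2]` and analytic at `1` (the problem presupposes a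
continuation).

1. `x_N(A) = L_S(1, A) + O(1/N)`.
2. For a real number `Ω ≠ 0`: `L_S(1, A)` is a nonzero rational multiple of `Ω` if and only if for some `M ≥ 1` the numbers
   `M x_N(A) / Ω` come arbitrarily close to nonzero integers for arbitrarily large `N`; and then, for some `M ≥ 1` and some
   integer `z ≠ 0`, `M x_N(A) / Ω = z + O(1/N)`.
3. So, with `Ω = Ω(A)`: the assertion of Q1 holds for `A` if and only if `x_N(A) → 0` or the condition of 2. holds.
-/

set_option autoImplicit false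

namespace Pool.Agent.Results.MP_90f827_nt.RationalApproximations

open Filter Topology Asymptotics IsDedekindDomain NumberField
open Pool.Agent.X242.DR Pool.Agent.X242.AR Pool.Agent.X242.EC Pool.Agent.W189.ML

/-- The rational weights: `|ρ_N(n) - cos(γ log n / N) / Γ(1 + log n / N)| ≤ 1 / (N n²)`. -/
def IsWeights (γ : ℝ) (ρ : ℕ → ℕ →₀ ℚ) : Prop :=
  ∀ N n : ℕ, 1 ≤ N → 1 ≤ n →
    |(ρ N n : ℝ) - Real.cos (γ * Real.log n / N) / Real.Gamma (1 + Real.log n / N)| ≤ 1 / (N * n ^ 2)

/-- `4a³ + 27b²` -/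
def disc {R : Type} [CommRing R] (a b : R) : R := 4 * a ^ 3 + 27 * b ^ 2

/-- `y² = x³ + a x + b` is an elliptic curve and `S` a finite set of primes containing the ones dividing
`2 (4a³ + 27b²)`. -/
structure IsCurve {F : Type} [Field F] [NumberField F] (a b : 𝓞 F) (S : Set (HeightOneSpectrum (𝓞 F))) :
    Prop where
  disc_ne : disc a b ≠ 0
  fin : S.Finite
  good : ∀ v : HeightOneSpectrum (𝓞 F), 2 * disc a b ∈ v.asIdeal → v ∈ S

/-- `x_N = ∑ ρ_N(n) b_n / n` -/
noncomputable def approx {F : Type} [Field F] [NumberField F] (ρ : ℕ → ℕ →₀ ℚ) (a b : 𝓞 F)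
    (S : Set (HeightOneSpectrum (𝓞 F))) (N : ℕ) : ℚ :=
  (ρ N).sum fun n r => r * (coeff a b S n / n)

/-- For some `M ≥ 1` the numbers `M x_N / P` come arbitrarily close to nonzero integers for arbitrarily large `N`. -/
def NearIntegers (x : ℕ → ℚ) (P : ℝ) : Prop :=
  ∃ M : ℕ, 1 ≤ M ∧ ∀ ε : ℝ, 0 < ε → ∀ N₀ : ℕ, ∃ N ≥ N₀, ∃ z : ℤ, z ≠ 0 ∧ |M * (x N : ℝ) / P - z| < ε

theorem weights_iff (γ : ℝ) (ρ : ℕ → ℕ →₀ ℚ) : IsWeights γ ρ ↔ IsRational 0 γ ρ := by
  have h : ∀ N n : ℕ, weight 0 γ N (Real.log n) =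
      Real.cos (γ * Real.log n / N) / Real.Gamma (1 + Real.log n / N) := by
    intro N n
    unfold weight om
    rw [Ck_zero, pow_zero, div_one, one_mul, Complex.re_mul_ofReal, Complex.exp_ofReal_mul_I_re,
      ← div_eq_mul_inv, mul_div_assoc]
  unfold IsWeights IsRational
  simp only [h]

theorem term_shift {F : Type} [Field F] [NumberField F] (a b : 𝓞 F) (S : Set (HeightOneSpectrum (𝓞 F)))
    (s : ℂ) (n : ℕ) : LSeries.term (fun n => (coeff a b S n : ℂ)) s n =
      LSeries.term (coefV fun v k => ((nval a b S v k : ℚ) : ℂ)) (s - 1) n := by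
  rcases Nat.eq_zero_or_pos n with rfl | hn
  · rw [LSeries.term_zero, LSeries.term_zero]
  · have hn0 : (n : ℂ) ≠ 0 := by exact_mod_cast hn.ne'
    have h1 : (coefV (fun (v : Pool.Agent.X298.ST.Places S) k => ((nval a b S v k : ℚ) : ℂ))) n =
        ((coeff a b S n / n : ℚ) : ℂ) := by
      rw [coeff_div]
      exact coefV_map (Rat.castHom ℂ) (nval a b S) n
    rw [LSeries.term_of_ne_zero hn.ne', LSeries.term_of_ne_zero hn.ne', h1, Complex.cpow_sub _ _ hn0,
      Complex.cpow_one]
    push_cast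
    field_simp

/-- **Central values of elliptic curves over number fields and universal rational weights.** -/
theorem result :
    -- 0. the weights exist
    (∀ γ : ℝ, ∃ ρ, IsWeights γ ρ) ∧
    ∀ γ : ℝ, Real.pi / 2 < γ → ∀ ρ : ℕ → ℕ →₀ ℚ, IsWeights γ ρ →
    ∀ (F : Type) [Field F] [NumberField F] (a b : 𝓞 F) (S : Set (HeightOneSpectrum (𝓞 F))),
      IsCurve a b S → ∀ L : ℂ → ℂ, IsLFunction a b S L →
    -- the coefficients
    (∀ s : ℂ, 2 < s.re → LSeriesSummable (fun n => (coeff a b S n : ℂ)) s ∧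
      L s = LSeries (fun n => (coeff a b S n : ℂ)) s) ∧
    -- 1. the approximations
    ((L 1).im = 0 ∧ (fun N : ℕ => (approx ρ a b S N : ℝ) - (L 1).re) =O[atTop]
      (fun N : ℕ => 1 / (N : ℝ))) ∧
    -- 2. rational multiples
    (∀ Ω : ℝ, Ω ≠ 0 → ((∃ q : ℚ, q ≠ 0 ∧ L 1 = q * Ω) ↔ NearIntegers (approx ρ a b S) Ω) ∧
      (NearIntegers (approx ρ a b S) Ω → ∃ M : ℕ, 1 ≤ M ∧ ∃ z : ℤ, z ≠ 0 ∧
        (fun N : ℕ => M * (approx ρ a b S N : ℝ) / Ω - z) =O[atTop] (fun N : ℕ => 1 / (N : ℝ)))) ∧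
    -- 3. the assertion of Q1
    ∀ Ω : ℝ, Ω ≠ 0 → ((L 1 ≠ 0 → ∃ q : ℚ, q ≠ 0 ∧ L 1 = q * Ω) ↔
      Tendsto (fun N : ℕ => (approx ρ a b S N : ℝ)) atTop (𝓝 0) ∨ NearIntegers (approx ρ a b S) Ω) := by
  refine ⟨fun γ => ?_, ?_⟩
  · obtain ⟨ρ, hρ⟩ := exists_rational 0 γ
    exact ⟨ρ, (weights_iff γ ρ).2 hρ⟩
  intro γ hγ ρ hρ' F _ _ a b S _ L hL
  have hρ := (weights_iff γ ρ).1 hρ'
  -- the coefficients
  have hB : ∀ (v : Pool.Agent.X298.ST.Places S) (k : ℕ), ‖((nval a b S v k : ℚ) : ℂ)‖ ≤ 2 :=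
    fun v k => nval_le v k
  have hcoef : ∀ s : ℂ, 2 < s.re → LSeriesSummable (fun n => (coeff a b S n : ℂ)) s ∧
      L s = LSeries (fun n => (coeff a b S n : ℂ)) s := by
    intro s hs
    have hs1 : 1 < (s - 1).re := by
      rw [Complex.sub_re, Complex.one_re]
      linarith
    obtain ⟨h1, h2⟩ := seriesV hB hs1
    have h3 := (isSeries hL).eq (s - 1) hs1
    rw [show (1 : ℂ) + (s - 1) = s by ring] at h3
    refine ⟨?_, ?_⟩
    · unfold LSeriesSummable at h1 ⊢
      exact h1.congr fun n => (term_shift a b S s n).symm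
    · rw [h3]
      unfold LSeries
      exact tsum_congr fun n => (term_shift a b S s n).symm
  -- the law
  have hcomb : ∀ N, comb (ρ N) (coefV fun (v : Pool.Agent.X298.ST.Places S) k =>
      ((nval a b S v k : ℚ) : ℂ)) = (((approx ρ a b S N : ℚ) : ℝ) : ℂ) := by
    intro N
    unfold comb approx Finsupp.sum
    push_cast
    refine Finset.sum_congr rfl fun n _ => ?_
    have h1 : (coefV (fun (v : Pool.Agent.X298.ST.Places S) k => ((nval a b S v k : ℚ) : ℂ))) n =
        ((coeff a b S n / n : ℚ) : ℂ) := by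
      rw [coeff_div]
      exact coefV_map (Rat.castHom ℂ) (nval a b S) n
    rw [h1]
    push_cast
    rfl
  have hbig : (fun w : ℂ => L (1 + w) - L 1 * w ^ 0) =O[𝓝[≠] 0] fun w : ℂ => w ^ (0 + 1) := by
    have hd : DifferentiableAt ℂ (fun w : ℂ => L (1 + w)) 0 := by
      have h1 : DifferentiableAt ℂ L (1 + 0) := by
        rw [add_zero]
        exact hL.ana.differentiableAt
      exact h1.comp (0 : ℂ) (by fun_prop)
    have h2 := hd.isBigO_sub
    simp only [add_zero, sub_zero] at h2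
    refine (h2.mono nhdsWithin_le_nhds).congr (fun w => ?_) (fun w => ?_)
    · rw [pow_zero, mul_one]
    · rw [zero_add, pow_one]
  have h1 := (isSeries hL).universal (coefV_zero _) 0 (L 1) hγ (by rw [Ck_zero]; exact one_ne_zero) hbig hρ
  simp only [hcomb] at h1
  have him : (L 1).im = 0 := by
    have h2 := h1.trans_tendsto tendsto_one_div_atTop_nhds_zero_nat
    have h3 := (Complex.continuous_im.tendsto 0).comp h2
    have h4 : (Complex.im ∘ fun N : ℕ => (((approx ρ a b S N : ℚ) : ℝ) : ℂ) - L 1) =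
        fun _ => -(L 1).im := by
      funext N
      simp
    rw [h4] at h3
    have h5 := tendsto_nhds_unique h3 tendsto_const_nhds
    simpa using h5.symm
  have hre : L 1 = (((L 1).re : ℝ) : ℂ) := by
    apply Complex.ext <;> simp [him]
  have hO : (fun N : ℕ => (approx ρ a b S N : ℝ) - (L 1).re) =O[atTop] (fun N : ℕ => 1 / (N : ℝ)) := by
    obtain ⟨C, hC⟩ := h1.bound
    refine IsBigO.of_bound C ?_
    filter_upwards [hC] with N hN
    refine le_trans (le_of_eq ?_) hN
    rw [← Complex.norm_real, Complex.ofReal_sub, ← hre]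
  have hlim : Tendsto (fun N : ℕ => (approx ρ a b S N : ℝ)) atTop (𝓝 (L 1).re) := by
    have h2 := hO.trans_tendsto tendsto_one_div_atTop_nhds_zero_nat
    have h3 := h2.add_const (L 1).re
    rw [zero_add] at h3
    exact h3.congr fun N => by ring
  have hlim1 : Tendsto (fun N : ℕ => (approx ρ a b S N : ℝ)) atTop (𝓝 (((1 : ℕ) : ℝ) * (L 1).re)) := by
    rw [Nat.cast_one, one_mul]
    exact hlim
  -- rational multiples
  have hiff : ∀ Ω : ℝ, Ω ≠ 0 → ((∃ q : ℚ, q ≠ 0 ∧ L 1 = q * Ω) ↔ NearIntegers (approx ρ a b S) Ω) := by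
    intro Ω hΩ
    refine Iff.trans ?_ (ratio_iff le_rfl hlim1 hΩ)
    constructor
    · rintro ⟨q, hq, h⟩
      have hq0 : (q : ℝ) ≠ 0 := by exact_mod_cast hq
      refine ⟨q⁻¹, inv_ne_zero hq, ?_⟩
      have h2 : (L 1).re = q * Ω := by
        have h3 := congrArg Complex.re h
        have h4 : ((q : ℂ) * (Ω : ℂ)) = ((q * Ω : ℝ) : ℂ) := by push_cast; rfl
        rw [h4, Complex.ofReal_re] at h3
        exact h3
      rw [h2]
      push_cast
      field_simp
    · rintro ⟨q, hq, h⟩
      have hq0 : (q : ℝ) ≠ 0 := by exact_mod_cast hq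
      refine ⟨q⁻¹, inv_ne_zero hq, ?_⟩
      rw [hre, h]
      push_cast
      have hqc : (q : ℂ) ≠ 0 := by exact_mod_cast hq
      field_simp
  refine ⟨hcoef, ⟨him, hO⟩, fun Ω hΩ => ⟨hiff Ω hΩ, fun hN => ?_⟩, fun Ω hΩ => ?_⟩
  · obtain ⟨q, hq, h⟩ := (hiff Ω hΩ).2 hN
    have h2 : (L 1).re = q * Ω := by
      have h3 := congrArg Complex.re h
      have h4 : ((q : ℂ) * (Ω : ℂ)) = ((q * Ω : ℝ) : ℂ) := by push_cast; rfl
      rw [h4, Complex.ofReal_re] at h3
      exact h3
    refine ⟨q.den, q.den_pos, q.num, Rat.num_ne_zero.2 hq, ?_⟩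
    have h5 := hO.const_mul_left ((q.den : ℝ) / Ω)
    refine h5.congr_left fun N => ?_
    have h6 : (q : ℝ) = q.num / q.den := by exact_mod_cast (Rat.num_div_den q).symm
    have hd : (q.den : ℝ) ≠ 0 := by exact_mod_cast q.den_nz
    rw [h2, h6]
    field_simp
  · rw [← hiff Ω hΩ]
    constructor
    · intro h
      by_cases h0 : L 1 = 0
      · left
        have : (L 1).re = 0 := by rw [h0]; simp
        rw [this] at hlim
        exact hlim
      · exact Or.inr (h h0)
    · rintro (h | h) hne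
      · exfalso
        apply hne
        have h2 := tendsto_nhds_unique h hlim
        rw [hre, ← h2]
        simp
      · exact h

end Pool.Agent.Results.MP_90f827_nt.RationalApproximations
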